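import Pool.Agent.H525.QF.Stm2

/-!
# Project QF, task NUM: a numerical inequality

By helper588.
-/

set_option autoImplicit false

namespace Pool.Agent.H588.QF

theorem geo (q : ℝ) (hq : 8 ≤ q) (N : ℕ) : ∀ c : ℝ, 0 ≤ c →
    ∑ k ∈ Finset.range (N + 1), (c + 2 * ((N : ℝ) - k)) * q ^ k ≤
      q ^ N * (8 / 7 * c + 16 / 49) := by
  induction N with
  | zero =>
    intro c hc
    simp only [zero_add, Finset.sum_range_one, Nat.cast_zero, sub_zero, mul_zero, add_zero,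
      pow_zero, mul_one, one_mul]
    linarith
  | succ N ih =>
    intro c hc
    rw [Finset.sum_range_succ]
    have h1 := ih (c + 2) (by linarith)
    have h2 : ∑ k ∈ Finset.range (N + 1), (c + 2 * (((N + 1 : ℕ) : ℝ) - k)) * q ^ k =
        ∑ k ∈ Finset.range (N + 1), (c + 2 + 2 * ((N : ℝ) - k)) * q ^ k := by
      refine Finset.sum_congr rfl fun k _ => ?_
      push_cast
      ring
    rw [h2]
    have h3 : 0 < q ^ N := by positivity
    have h5 : (c + 2 * (((N + 1 : ℕ) : ℝ) - ((N + 1 : ℕ) : ℝ))) = c := by ring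
    rw [h5, pow_succ]
    have h6 : q ^ N * (8 / 7 * (c + 2) + 16 / 49) ≤ q ^ N * (q * (c / 7 + 16 / 49)) := by
      refine mul_le_mul_of_nonneg_left ?_ h3.le
      have : 8 * (c / 7 + 16 / 49) ≤ q * (c / 7 + 16 / 49) :=
        mul_le_mul_of_nonneg_right hq (by positivity)
      linarith
    have h7 : q ^ N * q * (8 / 7 * c + 16 / 49) =
        q ^ N * (q * (c / 7 + 16 / 49)) + c * (q ^ N * q) := by ring
    linarith

theorem sum_lin (D : ℝ) (N : ℕ) :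
    ∑ i ∈ Finset.range N, (D - 2 * (i : ℝ)) = D * N - N * (N - 1) := by
  induction N with
  | zero => simp
  | succ N ih =>
    rw [Finset.sum_range_succ, ih]
    push_cast
    ring

theorem sum_sq (D : ℝ) (N : ℕ) :
    ∑ i ∈ Finset.range N, (D - (i : ℝ)) ^ 2 =
      N * D ^ 2 - D * (N * (N - 1)) + (N - 1) * N * (2 * N - 1) / 6 := by
  induction N with
  | zero => simp
  | succ N ih =>
    rw [Finset.sum_range_succ, ih]
    push_cast
    ring

/-- the weight of the `j`-th term -/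
noncomputable def Wt (j : ℕ) : ℝ :=
  (14 * ((j : ℝ) + 1) ^ 3 - 3 * ((j : ℝ) + 1) ^ 2 - 11 * ((j : ℝ) + 1) + 6) / 6 +
    (8 / 7 * (((j : ℝ) + 2) * (3 * j + 2)) + 16 / 49 * ((j : ℝ) + 2)) / 4

theorem Wt_nonneg (j : ℕ) : 0 ≤ Wt j := by
  unfold Wt
  have hj : (0 : ℝ) ≤ j := Nat.cast_nonneg j
  have h1 : 0 ≤ 14 * ((j : ℝ) + 1) ^ 3 - 3 * ((j : ℝ) + 1) ^ 2 - 11 * ((j : ℝ) + 1) + 6 := by
    have : 14 * ((j : ℝ) + 1) ^ 3 - 3 * ((j : ℝ) + 1) ^ 2 - 11 * ((j : ℝ) + 1) + 6 =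
        14 * (j : ℝ) ^ 3 + 39 * (j : ℝ) ^ 2 + 25 * j + 6 := by ring
    rw [this]
    positivity
  positivity

/-- one term -/
theorem jterm (q : ℝ) (hq : 8 ≤ q) (m j : ℕ) :
    q ^ (j + 1) * ∑ α ∈ Finset.range (j + 2), (8 / 5) *
      (∑ k ∈ Finset.range (2 * m + 1), (4 * ((m + j + 1 : ℕ) : ℝ) - 1 - 2 * α - 2 * k) * 2 * q ^ k +
       ∑ k ∈ Finset.Ico (2 * m + 2) (2 * (m + j + 1) - α + 1),
         (4 * ((m + j + 1 : ℕ) : ℝ) + 1 - 2 * α - 2 * k) * q ^ (2 * m + 1)) ≤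
      8 / 5 * Wt j * (q ^ (2 * (m + j + 1)) / 8 ^ j) := by
  have hq0 : 0 < q := by linarith
  have hα : ∀ α ∈ Finset.range (j + 2), (8 / 5) *
      (∑ k ∈ Finset.range (2 * m + 1), (4 * ((m + j + 1 : ℕ) : ℝ) - 1 - 2 * α - 2 * k) * 2 * q ^ k +
       ∑ k ∈ Finset.Ico (2 * m + 2) (2 * (m + j + 1) - α + 1),
         (4 * ((m + j + 1 : ℕ) : ℝ) + 1 - 2 * α - 2 * k) * q ^ (2 * m + 1)) ≤
      (8 / 5) * (q ^ (2 * m + 1) * (1 / 4 * (8 / 7 * ((4 * (j : ℝ) + 3) - 2 * α) + 16 / 49) +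
        ((2 * (j : ℝ) + 1) - α) ^ 2)) := by
    intro α hα
    have hαj : α ≤ j + 1 := by
      have := Finset.mem_range.1 hα
      omega
    have hαj' : (α : ℝ) ≤ (j : ℝ) + 1 := by exact_mod_cast hαj
    have hj0 : (0 : ℝ) ≤ j := Nat.cast_nonneg j
    refine mul_le_mul_of_nonneg_left ?_ (by norm_num)
    have h1 : ∑ k ∈ Finset.range (2 * m + 1),
        (4 * ((m + j + 1 : ℕ) : ℝ) - 1 - 2 * α - 2 * k) * 2 * q ^ k =
        2 * ∑ k ∈ Finset.range (2 * m + 1),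
          (((4 * (j : ℝ) + 3) - 2 * α) + 2 * (((2 * m : ℕ) : ℝ) - k)) * q ^ k := by
      rw [Finset.mul_sum]
      refine Finset.sum_congr rfl fun k _ => ?_
      push_cast
      ring
    have h2 := geo q hq (2 * m) ((4 * (j : ℝ) + 3) - 2 * α) (by linarith)
    have h3 : ∑ k ∈ Finset.Ico (2 * m + 2) (2 * (m + j + 1) - α + 1),
         (4 * ((m + j + 1 : ℕ) : ℝ) + 1 - 2 * α - 2 * k) * q ^ (2 * m + 1) =
        ((2 * (j : ℝ) + 1) - α) ^ 2 * q ^ (2 * m + 1) := by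
      rw [← Finset.sum_mul, Finset.sum_Ico_eq_sum_range]
      congr 1
      have e1 : 2 * (m + j + 1) - α + 1 - (2 * m + 2) = 2 * j + 1 - α := by omega
      rw [e1]
      have e2 : ((2 * j + 1 - α : ℕ) : ℝ) = 2 * (j : ℝ) + 1 - α := by
        rw [Nat.cast_sub (by omega)]
        push_cast
        ring
      have e3 : ∑ k ∈ Finset.range (2 * j + 1 - α),
          (4 * ((m + j + 1 : ℕ) : ℝ) + 1 - 2 * α - 2 * ((2 * m + 2 + k : ℕ) : ℝ)) =
          ∑ k ∈ Finset.range (2 * j + 1 - α), ((4 * (j : ℝ) + 1 - 2 * α) - 2 * (k : ℝ)) := by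
        refine Finset.sum_congr rfl fun k _ => ?_
        push_cast
        ring
      rw [e3, sum_lin, e2]
      ring
    rw [h1, h3]
    have h4 : q ^ (2 * m) ≤ q ^ (2 * m + 1) / 8 := by
      rw [pow_succ, le_div_iff₀ (by norm_num)]
      exact mul_le_mul_of_nonneg_left hq (by positivity)
    have h5 : 0 ≤ 8 / 7 * ((4 * (j : ℝ) + 3) - 2 * α) + 16 / 49 := by linarith
    have h6 : q ^ (2 * m) * (8 / 7 * ((4 * (j : ℝ) + 3) - 2 * α) + 16 / 49) ≤
        q ^ (2 * m + 1) / 8 * (8 / 7 * ((4 * (j : ℝ) + 3) - 2 * α) + 16 / 49) :=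
      mul_le_mul_of_nonneg_right h4 h5
    have h7 : q ^ (2 * m + 1) * (1 / 4 * (8 / 7 * ((4 * (j : ℝ) + 3) - 2 * α) + 16 / 49) +
        ((2 * (j : ℝ) + 1) - α) ^ 2) =
        2 * (q ^ (2 * m + 1) / 8 * (8 / 7 * ((4 * (j : ℝ) + 3) - 2 * α) + 16 / 49)) +
        ((2 * (j : ℝ) + 1) - α) ^ 2 * q ^ (2 * m + 1) := by ring
    rw [h7]
    linarith
  have hsum := Finset.sum_le_sum hα
  have hclosed : ∑ α ∈ Finset.range (j + 2),
      (8 / 5) * (q ^ (2 * m + 1) * (1 / 4 * (8 / 7 * ((4 * (j : ℝ) + 3) - 2 * α) + 16 / 49) +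
        ((2 * (j : ℝ) + 1) - α) ^ 2)) = 8 / 5 * q ^ (2 * m + 1) * Wt j := by
    rw [← Finset.mul_sum, ← Finset.mul_sum, Finset.sum_add_distrib, ← Finset.mul_sum,
      Finset.sum_add_distrib, ← Finset.mul_sum, sum_lin, sum_sq, Finset.sum_const,
      Finset.card_range, nsmul_eq_mul]
    unfold Wt
    push_cast
    ring
  rw [hclosed] at hsum
  have h8 : q ^ (j + 1) * (8 / 5 * q ^ (2 * m + 1) * Wt j) ≤
      8 / 5 * Wt j * (q ^ (2 * (m + j + 1)) / 8 ^ j) := by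
    have e1 : q ^ (j + 1) * (8 / 5 * q ^ (2 * m + 1) * Wt j) =
        8 / 5 * Wt j * q ^ (2 * m + j + 2) := by
      have : q ^ (2 * m + j + 2) = q ^ (j + 1) * q ^ (2 * m + 1) := by
        rw [← pow_add]
        congr 1
        omega
      rw [this]
      ring
    rw [e1]
    refine mul_le_mul_of_nonneg_left ?_ (mul_nonneg (by norm_num) (Wt_nonneg j))
    rw [le_div_iff₀ (by positivity)]
    have e2 : q ^ (2 * (m + j + 1)) = q ^ (2 * m + j + 2) * q ^ j := by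
      rw [← pow_add]
      congr 1
      omega
    rw [e2]
    exact mul_le_mul_of_nonneg_left (pow_le_pow_left₀ (by norm_num) hq j) (by positivity)
  exact (mul_le_mul_of_nonneg_left hsum (by positivity)).trans h8

/-- the telescoping polynomial -/
noncomputable def Pt (x : ℝ) : ℝ :=
  8 / 3 * x ^ 3 + 76 / 49 * x ^ 2 + 244 / 1029 * x + 3712 / 2401

theorem tele (n : ℕ) : ∑ j ∈ Finset.range n, Wt j / 8 ^ j = Pt 1 - Pt ((n : ℝ) + 1) / 8 ^ n := by
  induction n with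
  | zero => simp
  | succ n ih =>
    rw [Finset.sum_range_succ, ih]
    have h1 : Wt n = Pt ((n : ℝ) + 1) - Pt (((n + 1 : ℕ) : ℝ) + 1) / 8 := by
      unfold Wt Pt
      push_cast
      ring
    rw [h1, pow_succ]
    field_simp
    ring

theorem tele_le (n : ℕ) : ∑ j ∈ Finset.range n, Wt j / 8 ^ j ≤ 6.001 := by
  rw [tele]
  have h1 : 0 ≤ Pt ((n : ℝ) + 1) / 8 ^ n := by
    unfold Pt
    positivity
  have h2 : Pt 1 ≤ 6.001 := by
    unfold Pt
    norm_num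
  linarith

theorem third (q : ℝ) (hq : 8 ≤ q) (n : ℕ) :
    ∑ j ∈ Finset.range n, 2 * ((j : ℝ) + 1) * q ^ (j + 1) ≤ 1 / 2 * q ^ (2 * n) := by
  induction n with
  | zero => simp
  | succ n ih =>
    rw [Finset.sum_range_succ]
    have h1 : (n : ℝ) + 1 ≤ q ^ n := by
      have h2 : (1 : ℝ) + n * (q - 1) ≤ (1 + (q - 1)) ^ n :=
        one_add_mul_le_pow (by linarith) n
      have h3 : (1 : ℝ) + (q - 1) = q := by ring
      rw [h3] at h2
      have h4 : (0 : ℝ) ≤ n := Nat.cast_nonneg n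
      nlinarith
    have h5 : 2 * ((n : ℝ) + 1) * q ^ (n + 1) ≤ 2 * q ^ (2 * n) * q := by
      have e : 2 * q ^ (2 * n) * q = 2 * q ^ n * q ^ (n + 1) := by
        rw [two_mul n, pow_add, pow_succ]
        ring
      rw [e]
      refine mul_le_mul_of_nonneg_right ?_ (by positivity)
      linarith
    have h6 : q ^ (2 * (n + 1)) = q ^ (2 * n) * q ^ 2 := by
      rw [← pow_add]
      congr 1
    rw [h6]
    have h7 : 0 < q ^ (2 * n) := by positivity
    have h8 : q ^ (2 * n) * (1 / 2 + 2 * q) ≤ q ^ (2 * n) * (1 / 2 * q ^ 2) := by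
      refine mul_le_mul_of_nonneg_left ?_ h7.le
      nlinarith
    linarith

theorem t_num : Pool.Agent.H525.QF.S_num := by
  intro q n hq hn
  have hq0 : 0 < q := by linarith
  have hqn : 0 < q ^ (2 * n) := by positivity
  -- the first sum
  have h1 : (8 / 5 : ℝ) * ∑ k ∈ Finset.range (2 * n), (4 * (n : ℝ) - 1 - 2 * k) * 2 * q ^ k ≤
      8 / 5 * (2 * (q ^ (2 * n) / 8 * (72 / 49))) := by
    refine mul_le_mul_of_nonneg_left ?_ (by norm_num)
    obtain ⟨N, hN⟩ : ∃ N, 2 * n = N + 1 := ⟨2 * n - 1, by omega⟩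
    have hN' : (N : ℝ) = 2 * n - 1 := by
      have : (((N + 1 : ℕ)) : ℝ) = ((2 * n : ℕ) : ℝ) := by rw [hN]
      push_cast at this
      linarith
    have e1 : ∑ k ∈ Finset.range (2 * n), (4 * (n : ℝ) - 1 - 2 * k) * 2 * q ^ k =
        2 * ∑ k ∈ Finset.range (N + 1), (1 + 2 * ((N : ℝ) - k)) * q ^ k := by
      rw [hN, Finset.mul_sum]
      refine Finset.sum_congr rfl fun k _ => ?_
      rw [hN']
      ring
    rw [e1]
    refine mul_le_mul_of_nonneg_left ?_ (by norm_num)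
    refine (geo q hq N 1 (by norm_num)).trans ?_
    have e2 : q ^ N ≤ q ^ (2 * n) / 8 := by
      rw [hN, pow_succ, le_div_iff₀ (by norm_num)]
      exact mul_le_mul_of_nonneg_left hq (by positivity)
    calc q ^ N * (8 / 7 * 1 + 16 / 49) ≤ q ^ (2 * n) / 8 * (8 / 7 * 1 + 16 / 49) :=
          mul_le_mul_of_nonneg_right e2 (by norm_num)
      _ = q ^ (2 * n) / 8 * (72 / 49) := by norm_num
  -- the second sum
  have h2 : ∑ j ∈ Finset.range n, q ^ (j + 1) * ∑ α ∈ Finset.range (j + 2), (8 / 5) *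
      (∑ k ∈ Finset.range (2 * (n - 1 - j) + 1), (4 * (n : ℝ) - 1 - 2 * α - 2 * k) * 2 * q ^ k +
       ∑ k ∈ Finset.Ico (2 * (n - 1 - j) + 2) (2 * n - α + 1),
         (4 * (n : ℝ) + 1 - 2 * α - 2 * k) * q ^ (2 * (n - 1 - j) + 1)) ≤
      8 / 5 * q ^ (2 * n) * 6.001 := by
    refine le_trans (Finset.sum_le_sum (g := fun j => 8 / 5 * q ^ (2 * n) * (Wt j / 8 ^ j))
      fun j hj => ?_) ?_
    · obtain ⟨m, rfl⟩ : ∃ m, n = m + j + 1 :=
        ⟨n - 1 - j, by have := Finset.mem_range.1 hj; omega⟩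
      have e1 : m + j + 1 - 1 - j = m := by omega
      rw [e1]
      refine (jterm q hq m j).trans (le_of_eq ?_)
      ring
    · rw [← Finset.mul_sum]
      exact mul_le_mul_of_nonneg_left (tele_le n) (by positivity)
  have h3 := third q hq n
  have h4 : 8 / 5 * (2 * (q ^ (2 * n) / 8 * (72 / 49))) + 8 / 5 * q ^ (2 * n) * 6.001 +
      1 / 2 * q ^ (2 * n) ≤ 11 * q ^ (2 * n) := by
    have e : 8 / 5 * (2 * (q ^ (2 * n) / 8 * (72 / 49))) + 8 / 5 * q ^ (2 * n) * 6.001 +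
      1 / 2 * q ^ (2 * n) = (8 / 5 * (2 * (1 / 8 * (72 / 49))) + 8 / 5 * 6.001 + 1 / 2) *
        q ^ (2 * n) := by ring
    rw [e]
    refine mul_le_mul_of_nonneg_right ?_ hqn.le
    norm_num
  linarith

end Pool.Agent.H588.QF
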